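import Pool.Agent.U797.NL.Spec

set_option autoImplicit false

/-! Package ITER of project NL (helper797): the iteration (helper312). -/

namespace Pool.Agent.U312.NL

open Finset
open scoped Classical
open Pool.Agent.U797.LV (nb mem_nb)
open Pool.Agent.U797.NL

/-- the induced subgraph -/
def sub {V : Type} (G : SimpleGraph V) (U : Finset V) : SimpleGraph {x // x ∈ U} :=
  G.comap Subtype.val

theorem sub_adj {V : Type} {G : SimpleGraph V} {U : Finset V} {x y : {x // x ∈ U}} :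
    (sub G U).Adj x y ↔ G.Adj x.1 y.1 := Iff.rfl

theorem greedy {V : Type} [Fintype V] (G : SimpleGraph V) {D : ℝ} (hD1 : 1 ≤ D)
    (hD : ∀ v, ((nb G v).card : ℝ) ≤ D) :
    ∃ I : Finset V, Ind G I ∧ (Fintype.card V : ℝ) ≤ 2 * D * (I.card : ℝ) := by
  obtain ⟨I, hI, hmax⟩ := Finset.exists_max_image
    ((univ : Finset (Finset V)).filter (fun I => Ind G I)) Finset.card
    ⟨∅, by rw [mem_filter]; exact ⟨mem_univ _, fun x hx => absurd hx (Finset.notMem_empty x)⟩⟩
  rw [mem_filter] at hI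
  have hInd := hI.2
  refine ⟨I, hInd, ?_⟩
  have hcov : (univ : Finset V) ⊆ I.biUnion (fun x => insert x (nb G x)) := by
    intro v _
    rw [mem_biUnion]
    by_contra hcon
    push Not at hcon
    have hv : v ∉ I := fun h => hcon v h (mem_insert_self _ _)
    have h1 : Ind G (insert v I) := by
      have h2 : ∀ x ∈ I, ¬ G.Adj x v := fun x hx h => hcon x hx (mem_insert_of_mem (mem_nb.2 h))
      intro x hx y hy hxy
      rw [mem_insert] at hx hy
      rcases hx with rfl | hx <;> rcases hy with rfl | hy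
      · exact hxy.ne rfl
      · exact h2 y hy hxy.symm
      · exact h2 x hx hxy
      · exact hInd x hx y hy hxy
    have h3 := hmax (insert v I) (by rw [mem_filter]; exact ⟨mem_univ _, h1⟩)
    rw [card_insert_of_notMem hv] at h3
    omega
  have h1 : (Fintype.card V : ℝ) ≤ ∑ x ∈ I, (D + 1) := by
    calc (Fintype.card V : ℝ) = ((univ : Finset V).card : ℝ) := by rw [card_univ]
      _ ≤ ((I.biUnion (fun x => insert x (nb G x))).card : ℝ) := by
          exact_mod_cast card_le_card hcov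
      _ ≤ ((∑ x ∈ I, (insert x (nb G x)).card : ℕ) : ℝ) := by exact_mod_cast card_biUnion_le
      _ = ∑ x ∈ I, ((insert x (nb G x)).card : ℝ) := by push_cast; rfl
      _ ≤ ∑ x ∈ I, (D + 1) := by
          refine sum_le_sum fun x _ => ?_
          have h2 : ((insert x (nb G x)).card : ℝ) ≤ ((nb G x).card : ℝ) + 1 := by
            exact_mod_cast card_insert_le _ _
          linarith [hD x]
  rw [sum_const, nsmul_eq_mul] at h1
  have h2 : (0 : ℝ) ≤ I.card := Nat.cast_nonneg _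
  nlinarith

theorem sub_nb {V : Type} [Fintype V] {G : SimpleGraph V} {U : Finset V} (v : {x // x ∈ U}) :
    (nb (sub G U) v).card ≤ (nb G v.1 ∩ U).card := by
  have h1 : (nb (sub G U) v).map (Function.Embedding.subtype _) ⊆ nb G v.1 ∩ U := by
    intro u hu
    rw [mem_map] at hu
    obtain ⟨u', hu', rfl⟩ := hu
    rw [mem_inter]
    exact ⟨mem_nb.2 (sub_adj.1 (mem_nb.1 hu')), u'.2⟩
  have h2 := card_le_card h1
  rwa [card_map] at h2

theorem sub_tree {V : Type} {G : SimpleGraph V} {n : ℕ} {T : SimpleGraph (Fin (n + 1))}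
    (h : ¬ T.IsIndContained G) (U : Finset V) : ¬ T.IsIndContained (sub G U) := by
  rintro ⟨φ⟩
  exact h ⟨φ.trans (SimpleGraph.Embedding.comap (Function.Embedding.subtype _) G)⟩

theorem sub_free {V : Type} {G : SimpleGraph V} {k : ℕ} (h : G.CliqueFree k) (U : Finset V) :
    (sub G U).CliqueFree k := by
  intro s hs
  refine h (s.map (Function.Embedding.subtype _)) ?_
  rw [SimpleGraph.isNClique_iff] at hs ⊢
  refine ⟨?_, by rw [card_map]; exact hs.2⟩
  intro x hx y hy hxy
  rw [coe_map, Set.mem_image] at hx hy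
  obtain ⟨x', hx', rfl⟩ := hx
  obtain ⟨y', hy', rfl⟩ := hy
  exact hs.1 hx' hy' fun h => hxy (congrArg _ h)

theorem nbhd_free {V : Type} [Fintype V] {G : SimpleGraph V} {k : ℕ} (h : G.CliqueFree (k + 1))
    {a : V} {S : Finset V} (hS : S ⊆ nb G a) : (sub G S).CliqueFree k := by
  intro s hs
  have h1 : G.IsNClique k (s.map (Function.Embedding.subtype _)) := by
    rw [SimpleGraph.isNClique_iff] at hs ⊢
    refine ⟨?_, by rw [card_map]; exact hs.2⟩
    intro x hx y hy hxy
    rw [coe_map, Set.mem_image] at hx hy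
    obtain ⟨x', hx', rfl⟩ := hx
    obtain ⟨y', hy', rfl⟩ := hy
    exact hs.1 hx' hy' fun h => hxy (congrArg _ h)
  refine h _ (h1.insert (a := a) ?_)
  intro b hb
  rw [mem_map] at hb
  obtain ⟨b', _, rfl⟩ := hb
  exact mem_nb.1 (hS b'.2)

theorem sub_ind {V : Type} {G : SimpleGraph V} {U : Finset V} {I : Finset {x // x ∈ U}}
    (h : Ind (sub G U) I) : Ind G (I.map (Function.Embedding.subtype _)) := by
  intro x hx y hy
  rw [mem_map] at hx hy
  obtain ⟨x', hx', rfl⟩ := hx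
  obtain ⟨y', hy', rfl⟩ := hy
  exact h x' hx' y' hy'

/-- the condition on the neighbourhoods -/
def NC {V : Type} [Fintype V] (G : SimpleGraph V) (q : ℝ) : Prop :=
  ∀ a, ∀ S ⊆ nb G a, ∃ I ⊆ S, Ind G I ∧ (S.card : ℝ) ≤ q * I.card

theorem sub_NC {V : Type} [Fintype V] {G : SimpleGraph V} {q : ℝ} (h : NC G q) (U : Finset V) :
    NC (sub G U) q := by
  intro a S hS
  obtain ⟨I, hI1, hI2, hI3⟩ := h a.1 (S.map (Function.Embedding.subtype _)) (by
    intro u hu
    rw [mem_map] at hu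
    obtain ⟨u', hu', rfl⟩ := hu
    exact mem_nb.2 (sub_adj.1 (mem_nb.1 (hS hu'))))
  refine ⟨S.filter (fun x => x.1 ∈ I), filter_subset _ _, ?_, ?_⟩
  · intro x hx y hy hxy
    rw [mem_filter] at hx hy
    exact hI2 x.1 hx.2 y.1 hy.2 (sub_adj.1 hxy)
  · have h1 : (S.filter (fun x => x.1 ∈ I)).map (Function.Embedding.subtype _) = I := by
      ext u
      rw [mem_map]
      constructor
      · rintro ⟨u', hu', rfl⟩
        exact (mem_filter.1 hu').2
      · intro hu
        have h2 := hI1 hu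
        rw [mem_map] at h2
        obtain ⟨u', hu', rfl⟩ := h2
        exact ⟨u', mem_filter.2 ⟨hu', hu⟩, rfl⟩
    have h2 : (S.filter (fun x => x.1 ∈ I)).card = I.card := by
      conv_rhs => rw [← h1]
      rw [card_map]
    rw [h2]
    rwa [card_map] at hI3

theorem claim {n k K E : ℕ} {T : SimpleGraph (Fin (n + 1))} {q : ℝ} (hK : 1 ≤ K) (hE : 1 ≤ E)
    (hq : 2 ≤ q)
    (step : ∀ (V : Type) [Fintype V] (G : SimpleGraph V) (D : ℝ), 1 ≤ D →
      (∀ v, ((nb G v).card : ℝ) ≤ D) → G.CliqueFree k → ¬ T.IsIndContained G → NC G q →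
      ∃ (c : ℕ) (U : Finset V), 1 ≤ c ∧ c ≤ E ∧ (Fintype.card V : ℝ) ≤ q ^ c * (U.card : ℝ) ∧
        ∀ y ∈ U, ((nb G y ∩ U).card : ℝ) ≤ D / q ^ (c * K)) (N : ℕ) :
    ∀ (V : Type) [Fintype V] (G : SimpleGraph V) (D : ℝ), 1 ≤ D → D ≤ 2 ^ N →
      (∀ v, ((nb G v).card : ℝ) ≤ D) → G.CliqueFree k → ¬ T.IsIndContained G → NC G q →
      ∃ I : Finset V, Ind G I ∧
        (Fintype.card V : ℝ) ≤ 2 * q ^ (E * K) * D ^ (1 / (K : ℝ)) * (I.card : ℝ) := by
  have hq0 : 0 < q := by linarith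
  have hq1 : 1 ≤ q := by linarith
  have hKr : (0 : ℝ) < K := by exact_mod_cast hK
  have hqEK : q ≤ q ^ (E * K) := by
    calc q = q ^ 1 := (pow_one q).symm
      _ ≤ q ^ (E * K) := pow_le_pow_right₀ hq1 (Nat.mul_pos hE hK)
  -- the case of small degrees
  have small : ∀ (V : Type) [Fintype V] (G : SimpleGraph V) (D : ℝ), 1 ≤ D → D < q ^ (E * K) →
      (∀ v, ((nb G v).card : ℝ) ≤ D) → ∃ I : Finset V, Ind G I ∧
        (Fintype.card V : ℝ) ≤ 2 * q ^ (E * K) * D ^ (1 / (K : ℝ)) * (I.card : ℝ) := by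
    intro V _ G D hD1 hDq hD
    obtain ⟨I, hI, hc⟩ := greedy G hD1 hD
    refine ⟨I, hI, hc.trans ?_⟩
    have h1 : 1 ≤ D ^ (1 / (K : ℝ)) := Real.one_le_rpow hD1 (by positivity)
    refine mul_le_mul_of_nonneg_right ?_ (Nat.cast_nonneg _)
    calc 2 * D ≤ 2 * q ^ (E * K) * 1 := by linarith
      _ ≤ 2 * q ^ (E * K) * D ^ (1 / (K : ℝ)) := mul_le_mul_of_nonneg_left h1 (by positivity)
  induction N with
  | zero =>
    intro V _ G D hD1 hDN hD _ _ _
    exact small V G D hD1 (by rw [pow_zero] at hDN; linarith) hD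
  | succ N ih =>
    intro V _ G D hD1 hDN hD hfree hT hNC
    by_cases hDq : D < q ^ (E * K)
    · exact small V G D hD1 hDq hD
    push Not at hDq
    obtain ⟨c, U, hc1, hcE, hcard, hU⟩ := step V G D hD1 hD hfree hT hNC
    have hcK : 0 < q ^ (c * K) := by positivity
    have hcK1 : q ^ (c * K) ≤ q ^ (E * K) := pow_le_pow_right₀ hq1 (Nat.mul_le_mul_right K hcE)
    have hcK2 : 2 ≤ q ^ (c * K) := by
      calc 2 ≤ q := hq
        _ = q ^ 1 := (pow_one q).symm
        _ ≤ q ^ (c * K) := pow_le_pow_right₀ hq1 (Nat.mul_pos hc1 hK)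
    have hD'1 : 1 ≤ D / q ^ (c * K) := by
      rw [one_le_div hcK]
      exact hcK1.trans hDq
    have hD'2 : D / q ^ (c * K) ≤ 2 ^ N := by
      rw [div_le_iff₀ hcK]
      rw [pow_succ] at hDN
      have : (0 : ℝ) < 2 ^ N := by positivity
      nlinarith
    obtain ⟨I, hI, hIc⟩ := ih {x // x ∈ U} (sub G U) (D / q ^ (c * K)) hD'1 hD'2
      (fun v => by
        refine le_trans ?_ (hU v.1 v.2)
        exact_mod_cast sub_nb v)
      (sub_free hfree U) (sub_tree hT U) (sub_NC hNC U)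
    refine ⟨I.map (Function.Embedding.subtype _), sub_ind hI, ?_⟩
    rw [card_map]
    rw [Fintype.card_coe] at hIc
    have hD0 : 0 < D := by linarith
    have h1 : (D / q ^ (c * K)) ^ (1 / (K : ℝ)) = D ^ (1 / (K : ℝ)) / q ^ c := by
      rw [Real.div_rpow hD0.le hcK.le]
      congr 1
      rw [pow_mul, ← Real.rpow_natCast (q ^ c) K, ← Real.rpow_mul (by positivity),
        mul_one_div_cancel hKr.ne', Real.rpow_one]
    rw [h1] at hIc
    have hqc : 0 < q ^ c := by positivity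
    calc (Fintype.card V : ℝ) ≤ q ^ c * (U.card : ℝ) := hcard
      _ ≤ q ^ c * (2 * q ^ (E * K) * (D ^ (1 / (K : ℝ)) / q ^ c) * (I.card : ℝ)) :=
          mul_le_mul_of_nonneg_left hIc hqc.le
      _ = _ := by field_simp

theorem t_ITER : Pool.Agent.U797.NL.S_ITER := by
  intro hP n k T hk hT
  induction k, hk using Nat.le_induction with
  | base =>
    intro ε hε
    refine ⟨1, le_rfl, ?_⟩
    intro V _ G D hD1 hD hfree _
    have h2 : ∀ v u, ¬ G.Adj v u := by
      intro v u hvu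
      apply hfree {v, u}
      rw [SimpleGraph.isNClique_iff]
      refine ⟨?_, card_pair hvu.ne⟩
      intro x hx y hy hxy
      rw [mem_coe, mem_insert, mem_singleton] at hx hy
      rcases hx with rfl | rfl <;> rcases hy with rfl | rfl
      · exact absurd rfl hxy
      · exact hvu
      · exact hvu.symm
      · exact absurd rfl hxy
    refine ⟨univ, fun x _ y _ => h2 x y, ?_⟩
    rw [card_univ, one_mul]
    have h1 : 1 ≤ D ^ ε := Real.one_le_rpow hD1 hε.le
    have h3 : (0 : ℝ) ≤ Fintype.card V := Nat.cast_nonneg _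
    nlinarith
  | succ k hk ih =>
    intro ε hε
    obtain ⟨K, hK⟩ : ∃ K : ℕ, K = ⌈2 / ε⌉₊ + 1 := ⟨_, rfl⟩
    have hK1 : 1 ≤ K := by omega
    have hKr : (0 : ℝ) < K := by exact_mod_cast hK1
    have hKε : 1 / (K : ℝ) ≤ ε / 2 := by
      have h1 : 2 / ε ≤ K := by
        have := Nat.le_ceil (2 / ε)
        rw [hK]
        push_cast
        linarith
      rw [div_le_iff₀ hε] at h1
      rw [div_le_iff₀ hKr]
      linarith
    obtain ⟨E, hE1, q0, hq0, hstep⟩ := hP n (k + 1) K T (by omega) hK1 hT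
    have hEr : (0 : ℝ) < E := by exact_mod_cast hE1
    obtain ⟨ε', hε'⟩ : ∃ ε', ε' = ε / (2 * E * K) := ⟨_, rfl⟩
    have hε'0 : 0 < ε' := by rw [hε']; positivity
    obtain ⟨C', hC'1, hC'⟩ := ih ε' hε'0
    have hC'0 : 0 < C' := by linarith
    have hqC : 1 ≤ q0 * C' := by nlinarith
    refine ⟨2 * (q0 * C') ^ (E * K), ?_, ?_⟩
    · have : 1 ≤ (q0 * C') ^ (E * K) := one_le_pow₀ hqC
      linarith
    intro V _ G D hD1 hD hfree hTG
    have hD0 : 0 < D := by linarith
    have hDε : 1 ≤ D ^ ε' := Real.one_le_rpow hD1 hε'0.le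
    obtain ⟨q, hq⟩ : ∃ q, q = q0 * C' * D ^ ε' := ⟨_, rfl⟩
    have hqq : q0 ≤ q := by
      rw [hq, mul_assoc]
      have : 1 ≤ C' * D ^ ε' := by nlinarith
      nlinarith
    have hNC : NC G q := by
      intro a S hS
      obtain ⟨I, hI, hIc⟩ := hC' {x // x ∈ S} (sub G S) D hD1 (fun v => by
        refine le_trans ?_ (hD v.1)
        have h1 := sub_nb (G := G) v
        have h2 : (nb G v.1 ∩ S).card ≤ (nb G v.1).card := card_le_card inter_subset_left
        exact_mod_cast h1.trans h2) (nbhd_free hfree hS) (sub_tree hTG S)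
      refine ⟨I.map (Function.Embedding.subtype _), ?_, sub_ind hI, ?_⟩
      · intro u hu
        rw [mem_map] at hu
        obtain ⟨u', _, rfl⟩ := hu
        exact u'.2
      · rw [card_map]
        rw [Fintype.card_coe] at hIc
        refine hIc.trans (mul_le_mul_of_nonneg_right ?_ (Nat.cast_nonneg _))
        rw [hq, mul_assoc q0]
        have : 0 ≤ C' * D ^ ε' := by positivity
        nlinarith
    obtain ⟨N, hN⟩ := pow_unbounded_of_one_lt D (by norm_num : (1 : ℝ) < 2)
    obtain ⟨I, hI, hIc⟩ := claim hK1 hE1 (hq0.trans hqq) (fun V' _ G' D' h1 h2 h3 h4 h5 =>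
      hstep q hqq V' G' D' h1 h2 h3 h4 h5) N V G D hD1 hN.le hD hfree hTG hNC
    refine ⟨I, hI, hIc.trans (mul_le_mul_of_nonneg_right ?_ (Nat.cast_nonneg _))⟩
    have h1 : q ^ (E * K) = (q0 * C') ^ (E * K) * D ^ (ε / 2) := by
      rw [hq, mul_pow]
      congr 1
      rw [← Real.rpow_natCast, ← Real.rpow_mul hD0.le]
      congr 1
      rw [hε']
      push_cast
      field_simp
    have h2 : D ^ (ε / 2) * D ^ (1 / (K : ℝ)) ≤ D ^ ε := by
      rw [← Real.rpow_add hD0]
      exact Real.rpow_le_rpow_of_exponent_le hD1 (by linarith)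
    have h3 : 0 < (q0 * C') ^ (E * K) := by positivity
    calc 2 * q ^ (E * K) * D ^ (1 / (K : ℝ)) =
        2 * (q0 * C') ^ (E * K) * (D ^ (ε / 2) * D ^ (1 / (K : ℝ))) := by rw [h1]; ring
      _ ≤ 2 * (q0 * C') ^ (E * K) * D ^ ε := mul_le_mul_of_nonneg_left h2 (by positivity)

end Pool.Agent.U312.NL
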